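import Pool.Agent.H98.KS.Targets2

/-! G1b. The bound for the complete sums with prime modulus, `k = 4`. -/

set_option autoImplicit false

open Finset

namespace Pool.Agent.H60.KS

open Pool.Agent.H98.KS

section

variable {p : ℕ} [hp : Fact p.Prime]

private lemma sum_rg (f : ZMod p → ℝ) :
    ∑ b ∈ Finset.range p, f (b : ZMod p) = ∑ b : ZMod p, f b := by
  refine Finset.sum_bij (fun b _ => (b : ZMod p)) ?_ ?_ ?_ ?_
  · intro b _
    exact mem_univ _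
  · intro b hb c hc h
    rw [Finset.mem_range] at hb hc
    have := (ZMod.natCast_eq_natCast_iff' b c p).1 h
    rwa [Nat.mod_eq_of_lt hb, Nat.mod_eq_of_lt hc] at this
  · intro b _
    exact ⟨b.val, Finset.mem_range.2 (ZMod.val_lt b), by simp⟩
  · intro b _
    rfl

/-- the norm of the sum as a function on `F_p^2` -/
private noncomputable def NS (x y : ZMod p) : ℝ := ‖SW 4 p (fun _ => 1) (x.val : ℤ) (y.val : ℤ)‖

private lemma sw_gg (a b : ℤ) : ‖SW 4 p (fun _ => 1) a b‖ = p * ‖GG 4 a b p‖ := by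
  have h0 : (0 : ℝ) < p := by exact_mod_cast hp.out.pos
  rw [GG, norm_mul, norm_div, norm_one, Complex.norm_natCast, SW]
  simp only [one_mul]
  field_simp

private lemma ns_cast (hGE : T_GE) (m n : ℤ) :
    NS (m : ZMod p) (n : ZMod p) = ‖SW 4 p (fun _ => 1) m n‖ := by
  have h1 := (hGE 4 p (m % p) (n % p) hp.out.one_le).2.1 (m / p) (n / p)
  rw [Int.emod_add_mul_ediv, Int.emod_add_mul_ediv] at h1
  rw [NS, sw_gg, sw_gg, h1, ZMod.val_intCast, ZMod.val_intCast]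

private lemma ns_act (hGE : T_GE) (x y u : ZMod p) (hu : u ≠ 0) :
    NS (x * u ^ 4) (y * u) = NS x y := by
  have h0 : IsCoprime (u.val : ℤ) (p : ℤ) := by
    rw [Nat.isCoprime_iff_coprime]
    refine Nat.Coprime.symm ((Nat.Prime.coprime_iff_not_dvd hp.out).2 fun h => hu ?_)
    rw [← ZMod.natCast_eq_zero_iff, ZMod.natCast_zmod_val] at h
    exact h
  have h1 := (hGE 4 p x.val y.val hp.out.one_le).2.2.1 (u.val : ℤ) h0
  have h2 := ns_cast (p := p) hGE ((x.val : ℤ) * (u.val : ℤ) ^ 4) ((y.val : ℤ) * (u.val : ℤ))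
  rw [sw_gg, h1, ← sw_gg, ← NS] at h2
  rw [← h2]
  push_cast
  simp only [ZMod.natCast_val, ZMod.cast_id', id_eq]

private lemma ns_neg (hGE : T_GE) (x y : ZMod p) :
    NS (-x) (-y) = NS x y := by
  have h1 := (hGE 4 p x.val y.val hp.out.one_le).2.2.2
  have h2 := ns_cast (p := p) hGE (-(x.val : ℤ)) (-(y.val : ℤ))
  rw [sw_gg, h1, ← sw_gg, ← NS] at h2
  rw [← h2]
  push_cast
  simp only [ZMod.natCast_val, ZMod.cast_id', id_eq]

private lemma ns_zero : NS (0 : ZMod p) 0 = p := by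
  rw [NS, SW]
  simp [ee]

/-- the second moment -/
private lemma mom2 (hM2 : T_M2) :
    ∑ x : ZMod p, ∑ y : ZMod p, NS x y ^ 2 = (p : ℝ) ^ 3 := by
  have h1 : ∀ x : ZMod p, ∑ y : ZMod p, NS x y ^ 2 = (p : ℝ) ^ 2 := by
    intro x
    have h2 := hM2 4 p (fun _ => 1) (x.val : ℤ) hp.out.one_le
    rw [← sum_rg]
    have h3 : ∀ b ∈ Finset.range p, NS x (b : ZMod p) ^ 2 =
        ‖SW 4 p (fun _ => 1) (x.val : ℤ) (b : ℤ)‖ ^ 2 := by
      intro b hb
      rw [NS, ZMod.val_natCast, Nat.mod_eq_of_lt (Finset.mem_range.1 hb)]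
    rw [Finset.sum_congr rfl h3, h2]
    simp
    ring
  rw [Finset.sum_congr rfl fun x _ => h1 x]
  simp [ZMod.card]
  ring

/-- the fourth moment -/
private lemma mom4 (hM44 : T_M44) (h5 : 5 ≤ p) :
    ∑ x : ZMod p, ∑ y : ZMod p, NS x y ^ 4 ≤ 3 * (p : ℝ) ^ 4 + (p : ℝ) ^ 3 := by
  have h2 := hM44 p hp.out h5
  rw [← sum_rg]
  refine le_trans (le_of_eq ?_) h2
  refine Finset.sum_congr rfl fun a ha => ?_
  rw [← sum_rg]
  refine Finset.sum_congr rfl fun b hb => ?_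
  rw [NS, ZMod.val_natCast, ZMod.val_natCast, Nat.mod_eq_of_lt (Finset.mem_range.1 hb),
    Nat.mod_eq_of_lt (Finset.mem_range.1 ha)]

/-- sum over the orbit -/
private lemma split (c : ZMod p) (hc : c ≠ 0)
    (h2 : (2 : ZMod p) ≠ 0) :
    ∃ R : Finset (ZMod p × ZMod p), ∀ g : ZMod p × ZMod p → ℝ,
      ∑ q, g q = g (0, 0) + ∑ y ∈ univ.erase (0 : ZMod p), g (c * y ^ 4, y) +
        ∑ y ∈ univ.erase (0 : ZMod p), g (-(c * y ^ 4), y) + ∑ q ∈ R, g q := by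
  classical
  set A := (univ.erase (0 : ZMod p)).image (fun y => (c * y ^ 4, y)) with hA
  set B := (univ.erase (0 : ZMod p)).image (fun y => (-(c * y ^ 4), y)) with hB
  have h0A : ((0 : ZMod p), (0 : ZMod p)) ∉ A := by
    rw [hA, mem_image]
    rintro ⟨y, hy, h⟩
    exact (mem_erase.1 hy).1 (Prod.mk.inj h).2
  have h0B : ((0 : ZMod p), (0 : ZMod p)) ∉ B := by
    rw [hB, mem_image]
    rintro ⟨y, hy, h⟩
    exact (mem_erase.1 hy).1 (Prod.mk.inj h).2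
  have hAB : Disjoint A B := by
    rw [Finset.disjoint_left]
    intro q hq hq'
    rw [hA, mem_image] at hq
    rw [hB, mem_image] at hq'
    obtain ⟨y, hy, rfl⟩ := hq
    obtain ⟨z, hz, h⟩ := hq'
    obtain ⟨h3, h4⟩ := Prod.mk.inj h
    rw [h4] at h3
    have h5 : 2 * (c * y ^ 4) = 0 := by
      linear_combination -h3
    rcases mul_eq_zero.1 h5 with h6 | h6
    · exact h2 h6
    · exact mul_ne_zero hc (pow_ne_zero 4 (mem_erase.1 hy).1) h6
  refine ⟨(insert (0, 0) (A ∪ B))ᶜ, fun g => ?_⟩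
  rw [← Finset.sum_add_sum_compl (insert (0, 0) (A ∪ B)) g, sum_insert (by simp [h0A, h0B]),
    sum_union hAB, hA, hB, sum_image (fun _ _ _ _ h => (Prod.mk.inj h).2),
    sum_image (fun _ _ _ _ h => (Prod.mk.inj h).2)]
  ring

end

/-- real arithmetic -/
private lemma arith (r t A B : ℝ) (hr : 6 ≤ r) (ht : 0 ≤ t)
    (h1 : A = r ^ 6 - r ^ 4 - 2 * (r ^ 2 - 1) * t)
    (h2 : 2 * (r ^ 2 - 1) * t ^ 2 + B ≤ 2 * r ^ 8 + r ^ 6) (h3 : A ^ 2 ≤ r ^ 4 * B) :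
    t ≤ r ^ 3 := by
  by_contra h4
  push_neg at h4
  have hr0 : 0 < r := by linarith
  have h5 : r ^ 8 - 2 * r ^ 2 * (r ^ 4 + 2 * (r ^ 2 - 1) * t) ≤ B := by
    have h6 : r ^ 4 * (r ^ 8 - 2 * r ^ 2 * (r ^ 4 + 2 * (r ^ 2 - 1) * t)) ≤ r ^ 4 * B := by
      refine le_trans ?_ h3
      rw [h1]
      nlinarith [sq_nonneg (r ^ 4 + 2 * (r ^ 2 - 1) * t)]
    exact le_of_mul_le_mul_left h6 (by positivity)
  have h7 : 2 * (r ^ 2 - 1) * (t * (t - 2 * r ^ 2)) ≤ r ^ 8 + 3 * r ^ 6 := by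
    nlinarith
  have h8 : r ^ 3 * (r ^ 3 - 2 * r ^ 2) ≤ t * (t - 2 * r ^ 2) := by
    have : 0 ≤ r ^ 3 - 2 * r ^ 2 := by nlinarith [pow_pos hr0 2]
    exact mul_le_mul h4.le (by linarith) this ht
  have h9 : 2 * (r ^ 2 - 1) * (r ^ 3 * (r ^ 3 - 2 * r ^ 2)) ≤
      2 * (r ^ 2 - 1) * (t * (t - 2 * r ^ 2)) :=
    mul_le_mul_of_nonneg_left h8 (by nlinarith)
  have h10 : 2 * (r ^ 2 - 1) * (r ^ 3 * (r ^ 3 - 2 * r ^ 2)) ≤ r ^ 8 + 3 * r ^ 6 := h9.trans h7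
  have h11 : r ^ 5 * (r ^ 3 - 4 * r ^ 2 - 5 * r + 4) ≤ 0 := by nlinarith
  have h12 : 0 < r ^ 3 - 4 * r ^ 2 - 5 * r + 4 := by nlinarith [mul_nonneg hr0.le (sub_nonneg.2 hr)]
  have h13 := mul_pos (pow_pos hr0 5) h12
  linarith

/-- G1b -/
theorem ks_G1b (hGE : T_GE) (hM2 : T_M2) (hM44 : T_M44) : T_G1b := by
  refine ⟨36, fun p a b hp h36 ha hb => ?_⟩
  haveI : Fact p.Prime := ⟨hp⟩
  have h0 : (0 : ℝ) < p := by exact_mod_cast hp.pos
  have ha' : (a : ZMod p) ≠ 0 := fun h => ha ((ZMod.intCast_zmod_eq_zero_iff_dvd a p).1 h)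
  have hb' : (b : ZMod p) ≠ 0 := fun h => hb ((ZMod.intCast_zmod_eq_zero_iff_dvd b p).1 h)
  have h2 : (2 : ZMod p) ≠ 0 := by
    intro h
    have h1 : ((2 : ℕ) : ZMod p) = 0 := by exact_mod_cast h
    rw [ZMod.natCast_eq_zero_iff] at h1
    have := Nat.le_of_dvd (by norm_num) h1
    omega
  set c : ZMod p := a / b ^ 4 with hc
  have hc0 : c ≠ 0 := div_ne_zero ha' (pow_ne_zero 4 hb')
  set s : ℝ := NS (a : ZMod p) (b : ZMod p) with hs
  have hs0 : 0 ≤ s := norm_nonneg _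
  -- the values on the orbit
  have h3 : ∀ y : ZMod p, y ≠ 0 → NS (c * y ^ 4) y = s := by
    intro y hy
    have h4 := ns_act hGE (a : ZMod p) b (y / b) (div_ne_zero hy hb')
    rw [hs, ← h4]
    congr 1
    · rw [hc]
      field_simp
    · field_simp
  have h4 : ∀ y : ZMod p, y ≠ 0 → NS (-(c * y ^ 4)) y = s := by
    intro y hy
    have h5 := h3 (-y) (neg_ne_zero.2 hy)
    rw [← ns_neg hGE, ← h5]
    congr 1
    ring
  obtain ⟨R, hR⟩ := split c hc0 h2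
  have hcard : ((univ.erase (0 : ZMod p)).card : ℝ) = p - 1 := by
    rw [card_erase_of_mem (mem_univ _), card_univ, ZMod.card, Nat.cast_sub hp.one_le, Nat.cast_one]
  have hm2 := mom2 (p := p) hM2
  have hm4 := mom4 (p := p) hM44 (by omega)
  rw [← Fintype.sum_prod_type' (f := fun x y => NS x y ^ 2), hR] at hm2
  rw [← Fintype.sum_prod_type' (f := fun x y => NS x y ^ 4), hR] at hm4
  have e1 : ∀ n : ℕ, ∑ y ∈ univ.erase (0 : ZMod p), NS (c * y ^ 4) y ^ n = (p - 1) * s ^ n := by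
    intro n
    rw [Finset.sum_congr rfl fun y hy => by rw [h3 y (mem_erase.1 hy).1], sum_const, nsmul_eq_mul,
      hcard]
  have e2 : ∀ n : ℕ, ∑ y ∈ univ.erase (0 : ZMod p), NS (-(c * y ^ 4)) y ^ n = (p - 1) * s ^ n := by
    intro n
    rw [Finset.sum_congr rfl fun y hy => by rw [h4 y (mem_erase.1 hy).1], sum_const, nsmul_eq_mul,
      hcard]
  simp only [e1, e2, ns_zero] at hm2 hm4
  set A : ℝ := ∑ q ∈ R, NS q.1 q.2 ^ 2 with hA
  set B : ℝ := ∑ q ∈ R, NS q.1 q.2 ^ 4 with hB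
  have hCS : A ^ 2 ≤ (p : ℝ) ^ 2 * B := by
    have h5 := sq_sum_le_card_mul_sum_sq (s := R) (f := fun q => NS q.1 q.2 ^ 2)
    have h6 : ((R.card : ℕ) : ℝ) ≤ (p : ℝ) ^ 2 := by
      have := Finset.card_le_univ R
      rw [Fintype.card_prod, ZMod.card] at this
      calc ((R.card : ℕ) : ℝ) ≤ ((p * p : ℕ) : ℝ) := by exact_mod_cast this
        _ = (p : ℝ) ^ 2 := by push_cast; ring
    have h7 : ∑ q ∈ R, (NS q.1 q.2 ^ 2) ^ 2 = B := by
      rw [hB]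
      exact Finset.sum_congr rfl fun q _ => by ring
    rw [h7] at h5
    have hB0 : 0 ≤ B := Finset.sum_nonneg fun q _ => by positivity
    exact h5.trans (mul_le_mul_of_nonneg_right h6 hB0)
  set r : ℝ := Real.sqrt p with hr
  have hr2 : r ^ 2 = p := Real.sq_sqrt h0.le
  have hr6 : 6 ≤ r := by
    rw [hr]
    apply Real.le_sqrt_of_sq_le
    have : ((36 : ℕ) : ℝ) ≤ p := by exact_mod_cast h36
    push_cast at this
    linarith
  have key := arith r (s ^ 2) A B hr6 (by positivity)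
    (by
      have e3 : r ^ 6 = (p : ℝ) ^ 3 := by rw [← hr2]; ring
      have e4 : r ^ 4 = (p : ℝ) ^ 2 := by rw [← hr2]; ring
      rw [e3, e4, hr2]
      linarith)
    (by
      have e3 : r ^ 6 = (p : ℝ) ^ 3 := by rw [← hr2]; ring
      have e4 : r ^ 8 = (p : ℝ) ^ 4 := by rw [← hr2]; ring
      rw [e3, e4, hr2]
      nlinarith)
    (by
      have e4 : r ^ 4 = (p : ℝ) ^ 2 := by rw [← hr2]; ring
      rw [e4]
      exact hCS)
  have h5 : s = p * ‖GG 4 a b p‖ := by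
    rw [hs, ns_cast hGE, sw_gg]
  have h6 : ‖GG 4 a b p‖ ^ 2 * r ≤ 1 := by
    rw [h5] at key
    have h7 : r ^ 3 * (‖GG 4 a b p‖ ^ 2 * r) ≤ r ^ 3 * 1 := by
      have h8 : r ^ 3 * (‖GG 4 a b p‖ ^ 2 * r) = ((p : ℝ) * ‖GG 4 a b p‖) ^ 2 := by
        rw [← hr2]
        ring
      rw [h8, mul_one]
      exact key
    exact le_of_mul_le_mul_left h7 (by positivity)
  have h7 : ((p : ℝ) ^ (-(1 / (4 : ℝ)))) ^ 2 * r = 1 := by
    rw [hr, Real.sqrt_eq_rpow, ← Real.rpow_natCast, ← Real.rpow_mul h0.le, ← Real.rpow_add h0]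
    norm_num
  have h8 : ‖GG 4 a b p‖ ^ 2 ≤ ((p : ℝ) ^ (-(1 / (4 : ℝ)))) ^ 2 := by
    have h9 : ‖GG 4 a b p‖ ^ 2 * r ≤ ((p : ℝ) ^ (-(1 / (4 : ℝ)))) ^ 2 * r := by
      rw [h7]
      exact h6
    exact le_of_mul_le_mul_right h9 (by linarith)
  exact le_of_sq_le_sq h8 (by positivity)

end Pool.Agent.H60.KS
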