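import Pool.Agent.H98.KS.Targets2

/-! M44. The fourth moment of the quartic sums. -/

set_option autoImplicit false

open Finset

namespace Pool.Agent.H60.KS

open Pool.Agent.H98.KS

section

variable {p : ℕ} [hp : Fact p.Prime]

private lemma add_star (x : ZMod p) :
    (starRingEnd ℂ) (ZMod.stdAddChar x) = ZMod.stdAddChar (-x) :=
  (AddChar.map_neg_eq_conj _ x).symm

/-- Parseval in two variables -/
private lemma pars {I : Type} [Fintype I] [DecidableEq I] (f g : I → ZMod p) :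
    ∑ a : ZMod p, ∑ b : ZMod p, ‖∑ i, (ZMod.stdAddChar (a * f i + b * g i) : ℂ)‖ ^ 2 =
      (p : ℝ) ^ 2 * ((univ : Finset (I × I)).filter
        (fun q => f q.1 = f q.2 ∧ g q.1 = g q.2)).card := by
  classical
  have h1 : ∀ a b : ZMod p,
      ((‖∑ i, (ZMod.stdAddChar (a * f i + b * g i) : ℂ)‖ ^ 2 : ℝ) : ℂ) =
      ∑ q : I × I, ZMod.stdAddChar (a * (f q.1 - f q.2)) *
        ZMod.stdAddChar (b * (g q.1 - g q.2)) := by
    intro a b
    rw [← Complex.normSq_eq_norm_sq, ← Complex.mul_conj, map_sum, Finset.sum_mul_sum,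
      Fintype.sum_prod_type]
    refine Finset.sum_congr rfl fun i _ => Finset.sum_congr rfl fun j _ => ?_
    rw [add_star, ← AddChar.map_add_eq_mul, ← AddChar.map_add_eq_mul]
    congr 1
    ring
  have h4 : ((∑ a : ZMod p, ∑ b : ZMod p,
      ‖∑ i, (ZMod.stdAddChar (a * f i + b * g i) : ℂ)‖ ^ 2 : ℝ) : ℂ) =
      (((p : ℝ) ^ 2 * ((univ : Finset (I × I)).filter
        (fun q => f q.1 = f q.2 ∧ g q.1 = g q.2)).card : ℝ) : ℂ) := by
    rw [Complex.ofReal_sum]
    have h2 : ∀ a : ZMod p, ((∑ b : ZMod p,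
        ‖∑ i, (ZMod.stdAddChar (a * f i + b * g i) : ℂ)‖ ^ 2 : ℝ) : ℂ) =
        ∑ b : ZMod p, ∑ q : I × I, ZMod.stdAddChar (a * (f q.1 - f q.2)) *
          ZMod.stdAddChar (b * (g q.1 - g q.2)) := by
      intro a
      rw [Complex.ofReal_sum]
      exact Finset.sum_congr rfl fun b _ => h1 a b
    rw [Finset.sum_congr rfl fun a _ => h2 a]
    have h3 : ∀ a : ZMod p, ∑ b : ZMod p, ∑ q : I × I, ZMod.stdAddChar (a * (f q.1 - f q.2)) *
          ZMod.stdAddChar (b * (g q.1 - g q.2)) = ∑ q : I × I,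
          ZMod.stdAddChar (a * (f q.1 - f q.2)) * (if g q.1 - g q.2 = 0 then (p : ℂ) else 0) := by
      intro a
      rw [Finset.sum_comm]
      refine Finset.sum_congr rfl fun q _ => ?_
      rw [← Finset.mul_sum, AddChar.sum_mulShift _ (ZMod.isPrimitive_stdAddChar p), ZMod.card]
      split_ifs <;> simp
    rw [Finset.sum_congr rfl fun a _ => h3 a, Finset.sum_comm]
    have h5 : ∀ q : I × I, ∑ a : ZMod p, ZMod.stdAddChar (a * (f q.1 - f q.2)) *
        (if g q.1 - g q.2 = 0 then (p : ℂ) else 0) =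
        if f q.1 = f q.2 ∧ g q.1 = g q.2 then (p : ℂ) ^ 2 else 0 := by
      intro q
      rw [← Finset.sum_mul, AddChar.sum_mulShift _ (ZMod.isPrimitive_stdAddChar p), ZMod.card]
      by_cases h6 : f q.1 = f q.2
      · by_cases h7 : g q.1 = g q.2
        · rw [if_pos (sub_eq_zero.2 h6), if_pos (sub_eq_zero.2 h7), if_pos ⟨h6, h7⟩]
          ring
        · rw [if_neg (fun e => h7 (sub_eq_zero.1 e)), mul_zero,
            if_neg (fun e : f q.1 = f q.2 ∧ g q.1 = g q.2 => h7 e.2)]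
      · rw [if_neg (fun e : f q.1 - f q.2 = 0 => h6 (sub_eq_zero.1 e)),
          if_neg (fun e : f q.1 = f q.2 ∧ g q.1 = g q.2 => h6 e.1)]
        simp
    rw [Finset.sum_congr rfl fun q _ => h5 q, ← Finset.sum_filter, Finset.sum_const,
      nsmul_eq_mul]
    push_cast
    ring
  exact_mod_cast h4

/-- number of the solutions of `a b = c` -/
private lemma card_mul {c : ZMod p} (hc : c ≠ 0) :
    (((univ : Finset (ZMod p × ZMod p)).filter fun q => q.1 * q.2 = c).card : ℤ) = p - 1 := by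
  classical
  have h1 : ((univ : Finset (ZMod p × ZMod p)).filter fun q => q.1 * q.2 = c) =
      ((univ : Finset (ZMod p)).erase 0).image (fun a => (a, c * a⁻¹)) := by
    ext ⟨a, b⟩
    simp only [mem_filter, mem_univ, true_and, mem_image, mem_erase, and_true, Prod.mk.injEq]
    constructor
    · intro h
      have ha : a ≠ 0 := by
        rintro rfl
        exact hc (by rw [← h, zero_mul])
      refine ⟨a, ha, rfl, ?_⟩
      rw [← h]
      field_simp
    · rintro ⟨a', ha', rfl, rfl⟩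
      field_simp
  rw [h1, card_image_of_injective _ (fun a b h => (Prod.mk.inj h).1), card_erase_of_mem
    (mem_univ _), card_univ, ZMod.card]
  have := hp.out.one_le
  push_cast [Nat.cast_sub this]
  rfl

private lemma ring2 (h2 : p ≠ 2) : ringChar (ZMod p) ≠ 2 := by
  rw [ZMod.ringChar_zmod_n]
  exact h2

private lemma two_ne (h2 : p ≠ 2) : (2 : ZMod p) ≠ 0 := by
  intro h
  have h1 : ((2 : ℕ) : ZMod p) = 0 := by exact_mod_cast h
  rw [ZMod.natCast_eq_zero_iff] at h1
  exact h2 ((Nat.prime_dvd_prime_iff_eq hp.out Nat.prime_two).1 h1)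

/-- number of the solutions of `f u = v ^ 2` -/
private lemma card_sq (h2 : p ≠ 2) (f : ZMod p → ZMod p) :
    (((univ : Finset (ZMod p × ZMod p)).filter fun q => q.2 ^ 2 = f q.1).card : ℤ) =
      p + ∑ u, quadraticChar (ZMod p) (f u) := by
  classical
  have h1 : (((univ : Finset (ZMod p × ZMod p)).filter fun q => q.2 ^ 2 = f q.1).card : ℤ) =
      ∑ u : ZMod p, (((univ : Finset (ZMod p)).filter fun v => v ^ 2 = f u).card : ℤ) := by
    have h3 : ((univ : Finset (ZMod p × ZMod p)).filter fun q => q.2 ^ 2 = f q.1) =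
        (univ : Finset (ZMod p)).biUnion fun u =>
          ((univ : Finset (ZMod p)).filter fun v => v ^ 2 = f u).image fun v => (u, v) := by
      ext ⟨u, v⟩
      simp only [mem_filter, mem_univ, true_and, mem_biUnion, mem_image, Prod.mk.injEq]
      constructor
      · intro h
        exact ⟨u, v, h, rfl, rfl⟩
      · rintro ⟨u', v', h, rfl, rfl⟩
        exact h
    rw [h3, card_biUnion]
    · push_cast
      refine Finset.sum_congr rfl fun u _ => ?_
      rw [card_image_of_injective _ (fun a b h => (Prod.mk.inj h).2)]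
    · intro u _ u' _ huu
      refine Finset.disjoint_left.2 ?_
      intro q hq hq'
      obtain ⟨v, -, rfl⟩ := mem_image.1 hq
      obtain ⟨v', -, h⟩ := mem_image.1 hq'
      exact huu (Prod.mk.inj h).1.symm
  rw [h1]
  have h4 : ∀ u : ZMod p, (((univ : Finset (ZMod p)).filter fun v => v ^ 2 = f u).card : ℤ) =
      quadraticChar (ZMod p) (f u) + 1 := by
    intro u
    rw [← quadraticChar_card_sqrts (ring2 h2) (f u)]
    congr 2
    ext v
    simp
  rw [Finset.sum_congr rfl fun u _ => h4 u, Finset.sum_add_distrib, Finset.sum_const, card_univ,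
    ZMod.card]
  simp
  ring

private lemma sum_char (h2 : p ≠ 2) {c : ZMod p} (hc : c ≠ 0) :
    ∑ u : ZMod p, quadraticChar (ZMod p) (u ^ 2 - c) = -1 := by
  classical
  have h1 := card_sq h2 (fun u : ZMod p => u ^ 2 - c)
  have h3 : ((univ : Finset (ZMod p × ZMod p)).filter fun q => q.2 ^ 2 = q.1 ^ 2 - c).card =
      ((univ : Finset (ZMod p × ZMod p)).filter fun q => q.1 * q.2 = c).card := by
    have h20 := two_ne h2
    refine Finset.card_nbij' (fun q => (q.1 - q.2, q.1 + q.2))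
      (fun q => ((q.1 + q.2) / 2, (q.2 - q.1) / 2)) ?_ ?_ ?_ ?_
    · rintro ⟨u, v⟩ h
      simp only [coe_filter, mem_univ, true_and, Set.mem_setOf_eq] at h ⊢
      linear_combination -h
    · rintro ⟨a, b⟩ h
      simp only [coe_filter, mem_univ, true_and, Set.mem_setOf_eq] at h ⊢
      field_simp
      linear_combination (-4 : ZMod p) * h
    · rintro ⟨u, v⟩ _
      simp only [Prod.mk.injEq]
      constructor <;> field_simp <;> ring
    · rintro ⟨a, b⟩ _
      simp only [Prod.mk.injEq]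
      constructor <;> field_simp <;> ring
  rw [h3, card_mul hc] at h1
  linarith

/-- the circle -/
private lemma card_circle (h2 : p ≠ 2) {c : ZMod p} (hc : c ≠ 0) :
    (((univ : Finset (ZMod p × ZMod p)).filter fun q => q.2 ^ 2 = c - q.1 ^ 2).card : ℤ) ≤
      p + 1 := by
  classical
  rw [card_sq h2 (fun u : ZMod p => c - u ^ 2)]
  have h1 : ∑ u : ZMod p, quadraticChar (ZMod p) (c - u ^ 2) =
      quadraticChar (ZMod p) (-1) * ∑ u : ZMod p, quadraticChar (ZMod p) (u ^ 2 - c) := by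
    rw [Finset.mul_sum]
    refine Finset.sum_congr rfl fun u _ => ?_
    rw [← map_mul]
    congr 1
    ring
  rw [h1, sum_char h2 hc]
  have h3 : (-1 : ZMod p) ≠ 0 := neg_ne_zero.2 one_ne_zero
  rcases quadraticChar_dichotomy h3 with h | h <;> rw [h] <;> linarith

private lemma card_zero (h2 : p ≠ 2) :
    (((univ : Finset (ZMod p × ZMod p)).filter fun q => q.2 ^ 2 = 0 - q.1 ^ 2).card : ℤ) ≤
      2 * p - 1 := by
  classical
  rw [card_sq h2 (fun u : ZMod p => 0 - u ^ 2)]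
  have h1 : ∑ u : ZMod p, quadraticChar (ZMod p) (0 - u ^ 2) ≤
      ∑ u ∈ (univ : Finset (ZMod p)).erase 0, (1 : ℤ) := by
    rw [← Finset.sum_erase_add _ _ (mem_univ (0 : ZMod p))]
    have h3 : quadraticChar (ZMod p) (0 - 0 ^ 2) = 0 := by simp
    rw [h3, add_zero]
    refine Finset.sum_le_sum fun u hu => ?_
    have h4 : (0 - u ^ 2 : ZMod p) ≠ 0 := by
      rw [zero_sub]
      exact neg_ne_zero.2 (pow_ne_zero _ (ne_of_mem_erase hu))
    rcases quadraticChar_dichotomy h4 with h | h <;> rw [h] <;> norm_num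
  rw [Finset.sum_const, card_erase_of_mem (mem_univ _), card_univ, ZMod.card] at h1
  have := hp.out.one_le
  have h5 : ((p - 1 : ℕ) : ℤ) = p - 1 := by push_cast [Nat.cast_sub this]; rfl
  rw [nsmul_eq_mul, h5] at h1
  linarith

private lemma six_ne (h5 : 5 ≤ p) : (6 : ZMod p) ≠ 0 := by
  intro h
  have h1 : ((6 : ℕ) : ZMod p) = 0 := by exact_mod_cast h
  rw [ZMod.natCast_eq_zero_iff] at h1
  have h2 : p ≤ 6 := Nat.le_of_dvd (by norm_num) h1
  have h3 : p = 5 ∨ p = 6 := by omega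
  rcases h3 with h3 | h3
  · rw [h3] at h1
    norm_num at h1
  · rw [h3] at hp
    exact absurd hp.out (by norm_num)

/-- the cone -/
private lemma card_cone (h5 : 5 ≤ p) :
    (((univ : Finset (ZMod p × (ZMod p × ZMod p))).filter
      fun q => q.2.1 ^ 2 + q.2.2 ^ 2 = -6 * q.1 ^ 2).card : ℤ) ≤ (p : ℤ) ^ 2 + 2 * p - 2 := by
  classical
  have h2 : p ≠ 2 := by omega
  have h1 : (((univ : Finset (ZMod p × (ZMod p × ZMod p))).filter
      fun q => q.2.1 ^ 2 + q.2.2 ^ 2 = -6 * q.1 ^ 2).card : ℤ) =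
      ∑ s : ZMod p, (((univ : Finset (ZMod p × ZMod p)).filter
        fun q => q.2 ^ 2 = -6 * s ^ 2 - q.1 ^ 2).card : ℤ) := by
    have h3 : ((univ : Finset (ZMod p × (ZMod p × ZMod p))).filter
        fun q => q.2.1 ^ 2 + q.2.2 ^ 2 = -6 * q.1 ^ 2) =
        (univ : Finset (ZMod p)).biUnion fun s =>
          ((univ : Finset (ZMod p × ZMod p)).filter
            fun q => q.2 ^ 2 = -6 * s ^ 2 - q.1 ^ 2).image fun v => (s, v) := by
      ext ⟨s, u, v⟩
      simp only [mem_filter, mem_univ, true_and, mem_biUnion, mem_image, Prod.mk.injEq]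
      constructor
      · intro h
        exact ⟨s, (u, v), by linear_combination h, rfl, rfl⟩
      · rintro ⟨s', ⟨u', v'⟩, h, rfl, h'⟩
        obtain ⟨rfl, rfl⟩ := Prod.mk.inj h'
        linear_combination h
    rw [h3, card_biUnion]
    · push_cast
      refine Finset.sum_congr rfl fun u _ => ?_
      rw [card_image_of_injective _ (fun a b h => (Prod.mk.inj h).2)]
    · intro u _ u' _ huu
      refine Finset.disjoint_left.2 ?_
      intro q hq hq'
      obtain ⟨v, -, rfl⟩ := mem_image.1 hq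
      obtain ⟨v', -, h⟩ := mem_image.1 hq'
      exact huu (Prod.mk.inj h).1.symm
  rw [h1, ← Finset.sum_erase_add _ _ (mem_univ (0 : ZMod p))]
  have h3 : (((univ : Finset (ZMod p × ZMod p)).filter
        fun q => q.2 ^ 2 = -6 * (0 : ZMod p) ^ 2 - q.1 ^ 2).card : ℤ) ≤ 2 * p - 1 := by
    have h4 := card_zero (p := p) h2
    have h6 : (-6 * (0 : ZMod p) ^ 2) = 0 := by ring
    rw [h6]
    exact h4
  have h4 : ∑ s ∈ (univ : Finset (ZMod p)).erase 0, (((univ : Finset (ZMod p × ZMod p)).filter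
        fun q => q.2 ^ 2 = -6 * s ^ 2 - q.1 ^ 2).card : ℤ) ≤
      ∑ s ∈ (univ : Finset (ZMod p)).erase 0, ((p : ℤ) + 1) := by
    refine Finset.sum_le_sum fun s hs => card_circle h2 ?_
    exact mul_ne_zero (neg_ne_zero.2 (six_ne h5)) (pow_ne_zero _ (ne_of_mem_erase hs))
  rw [Finset.sum_const, card_erase_of_mem (mem_univ _), card_univ, ZMod.card] at h4
  have := hp.out.one_le
  have h7 : ((p - 1 : ℕ) : ℤ) = p - 1 := by push_cast [Nat.cast_sub this]; rfl
  rw [nsmul_eq_mul, h7] at h4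
  nlinarith

/-- the quadruples -/
private lemma card_quad (h5 : 5 ≤ p) :
    (((univ : Finset ((ZMod p × ZMod p) × (ZMod p × ZMod p))).filter
      fun q => q.1.1 ^ 4 + q.1.2 ^ 4 = q.2.1 ^ 4 + q.2.2 ^ 4 ∧
        q.1.1 + q.1.2 = q.2.1 + q.2.2).card : ℤ) ≤ 3 * (p : ℤ) ^ 2 + p := by
  classical
  have h2 : p ≠ 2 := by omega
  have h20 := two_ne (p := p) h2
  set A1 : Finset ((ZMod p × ZMod p) × (ZMod p × ZMod p)) :=
    (univ : Finset (ZMod p × ZMod p)).image fun x => (x, x) with hA1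
  set A2 : Finset ((ZMod p × ZMod p) × (ZMod p × ZMod p)) :=
    (univ : Finset (ZMod p × ZMod p)).image fun x => (x, (x.2, x.1)) with hA2
  set D : Finset ((ZMod p × ZMod p) × (ZMod p × ZMod p)) :=
    (univ : Finset (ZMod p)).image fun x => ((x, x), (x, x)) with hD
  set E : Finset ((ZMod p × ZMod p) × (ZMod p × ZMod p)) :=
    univ.filter fun q => q.1.1 + q.1.2 = q.2.1 + q.2.2 ∧
      q.1.1 * q.1.2 + q.2.1 * q.2.2 = 2 * (q.1.1 + q.1.2) ^ 2 with hE
  have c1 : A1.card ≤ p ^ 2 := by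
    refine card_image_le.trans (le_of_eq ?_)
    rw [card_univ, Fintype.card_prod, ZMod.card]
    ring
  have c2 : A2.card ≤ p ^ 2 := by
    refine card_image_le.trans (le_of_eq ?_)
    rw [card_univ, Fintype.card_prod, ZMod.card]
    ring
  have c3 : D.card = p := by
    rw [hD, card_image_of_injective _ (fun a b h => (Prod.mk.inj (Prod.mk.inj h).1).1), card_univ,
      ZMod.card]
  have c4 : D ⊆ A1 ∩ A2 := by
    intro q hq
    obtain ⟨x, -, rfl⟩ := mem_image.1 hq
    exact mem_inter.2 ⟨mem_image.2 ⟨(x, x), mem_univ _, rfl⟩, mem_image.2 ⟨(x, x), mem_univ _, rfl⟩⟩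
  have c5 := card_le_card c4
  have c6 := card_union_add_card_inter A1 A2
  have c7 : (E.card : ℤ) ≤ (p : ℤ) ^ 2 + 2 * p - 2 := by
    refine le_trans ?_ (card_cone h5)
    have h6 : E.card ≤ ((univ : Finset (ZMod p × (ZMod p × ZMod p))).filter
      fun q => q.2.1 ^ 2 + q.2.2 ^ 2 = -6 * q.1 ^ 2).card := by
      refine card_le_card_of_injOn (fun q => (q.1.1 + q.1.2,
        (2 * q.1.1 - (q.1.1 + q.1.2), 2 * q.2.1 - (q.1.1 + q.1.2)))) ?_ ?_
      · rintro ⟨⟨x1, x2⟩, ⟨x3, x4⟩⟩ hq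
        simp only [hE, coe_filter, mem_univ, true_and, Set.mem_setOf_eq] at hq ⊢
        obtain ⟨e1, e2⟩ := hq
        have e3 : x2 = x3 + x4 - x1 := by linear_combination e1
        subst e3
        linear_combination (-4 : ZMod p) * e2
      · rintro ⟨⟨x1, x2⟩, ⟨x3, x4⟩⟩ hq ⟨⟨y1, y2⟩, ⟨y3, y4⟩⟩ hq' h
        simp only [hE, coe_filter, mem_univ, true_and, Set.mem_setOf_eq] at hq hq'
        simp only [Prod.mk.injEq] at h ⊢
        obtain ⟨g1, g2, g3⟩ := h
        have k1 : x1 = y1 := by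
          apply mul_left_cancel₀ h20
          linear_combination g2 + g1
        have k3 : x3 = y3 := by
          apply mul_left_cancel₀ h20
          linear_combination g3 + g1
        refine ⟨⟨k1, ?_⟩, k3, ?_⟩
        · linear_combination g1 - k1
        · linear_combination g1 - k3 - hq.1 + hq'.1
    exact_mod_cast h6
  have c8 : ((univ : Finset ((ZMod p × ZMod p) × (ZMod p × ZMod p))).filter
      fun q => q.1.1 ^ 4 + q.1.2 ^ 4 = q.2.1 ^ 4 + q.2.2 ^ 4 ∧
        q.1.1 + q.1.2 = q.2.1 + q.2.2) ⊆ (A1 ∪ A2) ∪ E := by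
    rintro ⟨⟨x1, x2⟩, ⟨x3, x4⟩⟩ hq
    simp only [mem_filter, mem_univ, true_and] at hq
    obtain ⟨e1, e2⟩ := hq
    have e3 : (2 * (x1 * x2 - x3 * x4)) * (x1 * x2 + x3 * x4 - 2 * (x1 + x2) ^ 2) = 0 := by
      have e4 : x2 = x3 + x4 - x1 := by linear_combination e2
      subst e4
      linear_combination e1
    rcases mul_eq_zero.1 e3 with e4 | e4
    · refine mem_union_left _ ?_
      have e5 : x1 * x2 - x3 * x4 = 0 := (mul_eq_zero.1 e4).resolve_left h20
      have e6 : (x3 - x1) * (x3 - x2) = 0 := by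
        linear_combination e5 - x3 * e2
      rcases mul_eq_zero.1 e6 with e7 | e7
      · refine mem_union_left _ (mem_image.2 ⟨(x1, x2), mem_univ _, ?_⟩)
        have e8 : x3 = x1 := by linear_combination e7
        have e9 : x4 = x2 := by linear_combination -e2 - e8
        rw [e8, e9]
      · refine mem_union_right _ (mem_image.2 ⟨(x1, x2), mem_univ _, ?_⟩)
        have e8 : x3 = x2 := by linear_combination e7
        have e9 : x4 = x1 := by linear_combination -e2 - e8
        rw [e8, e9]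
    · refine mem_union_right _ ?_
      simp only [hE, mem_filter, mem_univ, true_and]
      exact ⟨e2, by linear_combination e4⟩
  have c9 := (card_le_card c8).trans (card_union_le _ _)
  have c10 : ((A1 ∪ A2).card : ℤ) ≤ 2 * (p : ℤ) ^ 2 - p := by
    have : (A1 ∪ A2).card + p ≤ 2 * p ^ 2 := by omega
    have h7 : (((A1 ∪ A2).card + p : ℕ) : ℤ) ≤ ((2 * p ^ 2 : ℕ) : ℤ) := by exact_mod_cast this
    push_cast at h7
    linarith
  have c11 : (((univ : Finset ((ZMod p × ZMod p) × (ZMod p × ZMod p))).filter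
      fun q => q.1.1 ^ 4 + q.1.2 ^ 4 = q.2.1 ^ 4 + q.2.2 ^ 4 ∧
        q.1.1 + q.1.2 = q.2.1 + q.2.2).card : ℤ) ≤ (A1 ∪ A2).card + E.card := by
    exact_mod_cast c9
  linarith

/-- the sum over `range p` and over `ZMod p` -/
private lemma sum_range {E : Type*} [AddCommMonoid E] (f : ZMod p → E) :
    ∑ a ∈ range p, f (a : ZMod p) = ∑ a : ZMod p, f a := by
  refine Finset.sum_bij (fun (b : ℕ) _ => (b : ZMod p)) ?_ ?_ ?_ ?_
  · intro b _
    exact mem_univ _
  · intro b hb c hc h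
    rw [Finset.mem_range] at hb hc
    have := (ZMod.natCast_eq_natCast_iff' b c p).1 h
    rwa [Nat.mod_eq_of_lt hb, Nat.mod_eq_of_lt hc] at this
  · intro b _
    exact ⟨b.val, Finset.mem_range.2 (ZMod.val_lt b), by simp⟩
  · intro b _
    rfl

private lemma ee_eq (m : ℤ) : ee ((m : ℝ) / p) = ZMod.stdAddChar (m : ZMod p) := by
  rw [ZMod.stdAddChar_coe, ee]
  congr 1
  push_cast
  ring

private lemma sw_eq (a b : ℕ) : SW 4 p (fun _ => 1) a b =
    ∑ x : ZMod p, (ZMod.stdAddChar ((a : ZMod p) * x ^ 4 + (b : ZMod p) * x) : ℂ) := by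
  rw [← sum_range, SW]
  refine Finset.sum_congr rfl fun x _ => ?_
  rw [one_mul, ee_eq]
  push_cast
  rfl

end

/-- M44 -/
theorem ks_M44 : T_M44 := by
  intro p hp h5
  haveI : Fact p.Prime := ⟨hp⟩
  have h1 : ∀ a b : ℕ, ‖SW 4 p (fun _ => 1) a b‖ ^ 4 =
      ‖∑ x : ZMod p × ZMod p, (ZMod.stdAddChar ((a : ZMod p) * (x.1 ^ 4 + x.2 ^ 4) +
        (b : ZMod p) * (x.1 + x.2)) : ℂ)‖ ^ 2 := by
    intro a b
    have h2 : ∑ x : ZMod p × ZMod p, (ZMod.stdAddChar ((a : ZMod p) * (x.1 ^ 4 + x.2 ^ 4) +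
        (b : ZMod p) * (x.1 + x.2)) : ℂ) = SW 4 p (fun _ => 1) a b ^ 2 := by
      rw [sw_eq, pow_two, Finset.sum_mul_sum, Fintype.sum_prod_type]
      refine Finset.sum_congr rfl fun x _ => Finset.sum_congr rfl fun y _ => ?_
      rw [← AddChar.map_add_eq_mul]
      congr 1
      ring
    rw [h2, norm_pow]
    ring
  have h2 : ∑ a ∈ Finset.range p, ∑ b ∈ Finset.range p,
      ‖SW 4 p (fun _ => 1) (a : ℤ) (b : ℤ)‖ ^ 4 =
      ∑ a : ZMod p, ∑ b : ZMod p, ‖∑ x : ZMod p × ZMod p,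
        (ZMod.stdAddChar (a * (x.1 ^ 4 + x.2 ^ 4) + b * (x.1 + x.2)) : ℂ)‖ ^ 2 := by
    rw [← sum_range]
    refine Finset.sum_congr rfl fun a _ => ?_
    rw [← sum_range]
    exact Finset.sum_congr rfl fun b _ => h1 a b
  rw [h2, pars]
  have h3 := card_quad (p := p) h5
  have h4 : (((univ : Finset ((ZMod p × ZMod p) × (ZMod p × ZMod p))).filter
      fun q => q.1.1 ^ 4 + q.1.2 ^ 4 = q.2.1 ^ 4 + q.2.2 ^ 4 ∧
        q.1.1 + q.1.2 = q.2.1 + q.2.2).card : ℝ) ≤ 3 * (p : ℝ) ^ 2 + p := by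
    exact_mod_cast h3
  calc (p : ℝ) ^ 2 * _ ≤ (p : ℝ) ^ 2 * (3 * (p : ℝ) ^ 2 + p) := by
        gcongr
    _ = 3 * (p : ℝ) ^ 4 + (p : ℝ) ^ 3 := by ring

end Pool.Agent.H60.KS
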